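import Mathlib

/-!
# Sparse polynomials have few zeros on grids of powers of two
-/

set_option autoImplicit false

open Finset

namespace Pool.Agent.V8H61.RB

open Polynomial in
theorem signVar_lt (n : ℕ) : ∀ P : ℝ[X], P ≠ 0 → P.support.card = n → P.signVariations + 1 ≤ n := by
  induction n with
  | zero =>
    intro P hP h
    rw [Finset.card_eq_zero, Polynomial.support_eq_empty] at h
    exact absurd h hP
  | succ n ih =>
    intro P hP h
    by_cases h0 : P.eraseLead = 0
    · have h1 : P = monomial P.natDegree P.leadingCoeff := by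
        have := P.eraseLead_add_monomial_natDegree_leadingCoeff
        rw [h0, zero_add] at this
        exact this.symm
      have h2 : P.signVariations = 0 := by
        rw [h1]
        exact signVariations_monomial _ _
      omega
    · have h1 := ih P.eraseLead h0 (by
        have := card_support_eraseLead (f := P)
        omega)
      have h2 := signVariations_le_eraseLead_succ (P := P)
      omega

open Polynomial in
theorem real_zeros (Θ : ℕ) (P : ℝ[X]) (hP : P ≠ 0) :
    (univ.filter fun i : Fin Θ => P.eval ((2 : ℝ) ^ (i : ℕ)) = 0).card + 1 ≤ P.support.card := by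
  have h1 := signVar_lt _ P hP rfl
  have h2 := roots_countP_pos_le_signVariations P
  have h3 : (univ.filter fun i : Fin Θ => P.eval ((2 : ℝ) ^ (i : ℕ)) = 0).card ≤
      (P.roots.filter (0 < ·)).toFinset.card := by
    refine card_le_card_of_injOn (fun i => (2 : ℝ) ^ (i : ℕ)) ?_ ?_
    · intro i hi
      rw [Finset.mem_coe, mem_filter] at hi
      rw [Finset.mem_coe, Multiset.mem_toFinset, Multiset.mem_filter, mem_roots hP]
      exact ⟨hi.2, by positivity⟩
    · intro i _ j _ hij
      have := pow_right_injective₀ (a := (2 : ℝ)) (by norm_num) (by norm_num) hij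
      exact Fin.ext this
  have h4 := Multiset.toFinset_card_le (P.roots.filter (0 < ·))
  rw [← Multiset.countP_eq_card_filter] at h4
  omega

/-- the number of zeros of a sparse function with complex coefficients -/
theorem one_var {ι : Type} (Θ : ℕ) (s : Finset ι) (c : ι → ℂ) (a : ι → ℕ)
    (hinj : ∀ i ∈ s, ∀ j ∈ s, a i = a j → i = j) (hne : ∃ i ∈ s, c i ≠ 0) (R : ℕ)
    (hR : (s.image a).card ≤ R) :
    (univ.filter fun i : Fin Θ => ∑ e ∈ s, c e * (2 : ℂ) ^ ((i : ℕ) * a e) = 0).card + 1 ≤ R := by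
  classical
  have key : ∀ (g : ι → ℝ), (∃ i ∈ s, g i ≠ 0) →
      (univ.filter fun i : Fin Θ => ∑ e ∈ s, g e * (2 : ℝ) ^ ((i : ℕ) * a e) = 0).card + 1 ≤ R := by
    intro g hg
    obtain ⟨P, hP⟩ : ∃ P : Polynomial ℝ, P = ∑ e ∈ s, Polynomial.monomial (a e) (g e) := ⟨_, rfl⟩
    have hco : ∀ i ∈ s, P.coeff (a i) = g i := by
      intro i hi
      rw [hP, Polynomial.finsetSum_coeff, Finset.sum_eq_single i]
      · rw [Polynomial.coeff_monomial, if_pos rfl]
      · intro j hj hji
        rw [Polynomial.coeff_monomial, if_neg]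
        intro h
        exact hji (hinj j hj i hi h)
      · intro h
        exact absurd hi h
    have hP0 : P ≠ 0 := by
      obtain ⟨i, hi, hgi⟩ := hg
      intro h
      apply hgi
      rw [← hco i hi, h, Polynomial.coeff_zero]
    have hsup : P.support ⊆ s.image a := by
      intro n hn
      by_contra hc
      rw [Polynomial.mem_support_iff] at hn
      apply hn
      rw [hP, Polynomial.finsetSum_coeff]
      refine Finset.sum_eq_zero fun i hi => ?_
      rw [Polynomial.coeff_monomial, if_neg]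
      intro h
      exact hc (mem_image.2 ⟨i, hi, h⟩)
    have h1 := real_zeros Θ P hP0
    have h2 := (card_le_card hsup).trans hR
    have h3 : (univ.filter fun i : Fin Θ => ∑ e ∈ s, g e * (2 : ℝ) ^ ((i : ℕ) * a e) = 0) =
        univ.filter fun i : Fin Θ => P.eval ((2 : ℝ) ^ (i : ℕ)) = 0 := by
      refine Finset.filter_congr fun i _ => ?_
      rw [hP, Polynomial.eval_finsetSum]
      have h4 : ∀ e ∈ s, (Polynomial.monomial (a e) (g e)).eval ((2 : ℝ) ^ (i : ℕ)) =
          g e * (2 : ℝ) ^ ((i : ℕ) * a e) := by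
        intro e _
        rw [Polynomial.eval_monomial, pow_mul]
      rw [Finset.sum_congr rfl h4]
    rw [h3]
    omega
  have hpow : ∀ n : ℕ, (2 : ℂ) ^ n = (((2 : ℝ) ^ n : ℝ) : ℂ) := by
    intro n
    push_cast
    rfl
  have hre : ∀ i : Fin Θ, (∑ e ∈ s, c e * (2 : ℂ) ^ ((i : ℕ) * a e)).re =
      ∑ e ∈ s, (c e).re * (2 : ℝ) ^ ((i : ℕ) * a e) := by
    intro i
    rw [Complex.re_sum]
    refine Finset.sum_congr rfl fun e _ => ?_
    rw [hpow, Complex.re_mul_ofReal]
  have him : ∀ i : Fin Θ, (∑ e ∈ s, c e * (2 : ℂ) ^ ((i : ℕ) * a e)).im =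
      ∑ e ∈ s, (c e).im * (2 : ℝ) ^ ((i : ℕ) * a e) := by
    intro i
    rw [Complex.im_sum]
    refine Finset.sum_congr rfl fun e _ => ?_
    rw [hpow, Complex.im_mul_ofReal]
  obtain ⟨i, hi, hci⟩ := hne
  by_cases h0 : (c i).re = 0
  · refine le_trans (Nat.add_le_add_right (card_le_card ?_) 1) (key (fun e => (c e).im) ⟨i, hi, ?_⟩)
    · intro j hj
      rw [mem_filter] at hj ⊢
      refine ⟨mem_univ _, ?_⟩
      rw [← him, hj.2]
      rfl
    · intro h1
      exact hci (Complex.ext h0 h1)
  · refine le_trans (Nat.add_le_add_right (card_le_card ?_) 1) (key (fun e => (c e).re) ⟨i, hi, h0⟩)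
    intro j hj
    rw [mem_filter] at hj ⊢
    refine ⟨mem_univ _, ?_⟩
    rw [← hre, hj.2]
    rfl

/-- the value at a point of the grid -/
noncomputable def vl {k : ℕ} (Ψ : (Fin k → ℕ) →₀ ℂ) (p : Fin k → ℕ) : ℂ :=
  Ψ.sum fun e c => c * ∏ j, (2 : ℂ) ^ (p j * e j)

/-- insert a value for the first variable -/
noncomputable def sl {k : ℕ} (Ψ : (Fin (k + 1) → ℕ) →₀ ℂ) (i : ℕ) : (Fin k → ℕ) →₀ ℂ :=
  Ψ.sum fun e c => Finsupp.single (Fin.tail e) (c * (2 : ℂ) ^ (i * e 0))

theorem vl_cons {k : ℕ} (Ψ : (Fin (k + 1) → ℕ) →₀ ℂ) (i : ℕ) (p : Fin k → ℕ) :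
    vl Ψ (Fin.cons i p) = vl (sl Ψ i) p := by
  unfold vl sl
  rw [Finsupp.sum_sum_index (fun _ => by rw [zero_mul]) (fun _ _ _ => by rw [add_mul])]
  unfold Finsupp.sum
  refine Finset.sum_congr rfl fun e _ => ?_
  dsimp only
  have e1 := Finsupp.sum_single_index (a := Fin.tail e) (b := Ψ e * (2 : ℂ) ^ (i * e 0))
    (h := fun e c => c * ∏ j, (2 : ℂ) ^ (p j * e j)) (by rw [zero_mul])
  unfold Finsupp.sum at e1
  rw [e1, Fin.prod_univ_succ, Fin.cons_zero, mul_assoc]
  rfl

theorem sl_apply {k : ℕ} (Ψ : (Fin (k + 1) → ℕ) →₀ ℂ) (i : ℕ) (e' : Fin k → ℕ) :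
    sl Ψ i e' = ∑ e ∈ Ψ.support.filter (fun e => Fin.tail e = e'), Ψ e * (2 : ℂ) ^ (i * e 0) := by
  classical
  unfold sl
  rw [Finsupp.sum_apply, Finset.sum_filter]
  unfold Finsupp.sum
  refine Finset.sum_congr rfl fun e _ => ?_
  dsimp only
  rw [Finsupp.single_apply]

theorem dens (k : ℕ) : ∀ {R Θ : ℕ} (Ψ : (Fin k → ℕ) →₀ ℂ), Ψ ≠ 0 →
    (∀ j, (Ψ.support.image (fun e => e j)).card ≤ R) →
    (univ.filter (fun p : Fin k → Fin Θ => vl Ψ (fun j => p j) = 0)).card * Θ ≤
      k * R * Θ ^ k := by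
  induction k with
  | zero =>
    intro R Θ Ψ hΨ _
    have h1 : (univ.filter (fun p : Fin 0 → Fin Θ => vl Ψ (fun j => p j) = 0)) = ∅ := by
      rw [Finset.filter_eq_empty_iff]
      intro p _ h
      apply hΨ
      refine Finsupp.ext fun e => ?_
      unfold vl Finsupp.sum at h
      have h2 : Ψ.support = {e} := by
        obtain ⟨e', he'⟩ := Finsupp.support_nonempty_iff.2 hΨ
        ext x
        rw [mem_singleton, Subsingleton.elim x e, Subsingleton.elim e e']
        simp [he']
      rw [h2, Finset.sum_singleton] at h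
      simpa using h
    rw [h1]
    simp
  | succ k ih =>
    intro R Θ Ψ hΨ hR
    classical
    -- a nonzero coefficient
    obtain ⟨e0, he0⟩ := Finsupp.support_nonempty_iff.2 hΨ
    obtain ⟨bad, hbad⟩ : ∃ bad : Finset (Fin Θ), bad = univ.filter fun i : Fin Θ =>
      sl Ψ i (Fin.tail e0) = 0 := ⟨_, rfl⟩
    have hb : bad.card ≤ R := by
      have h1 := one_var Θ (Ψ.support.filter (fun e => Fin.tail e = Fin.tail e0)) (fun e => Ψ e)
        (fun e => e 0) (by
          intro e he e' he' h
          rw [mem_filter] at he he'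
          rw [← Fin.cons_self_tail e, ← Fin.cons_self_tail e', he.2, he'.2, h])
        ⟨e0, mem_filter.2 ⟨he0, rfl⟩, Finsupp.mem_support_iff.1 he0⟩ R
        ((card_le_card (Finset.image_subset_image (filter_subset _ _))).trans (hR 0))
      have h2 : bad = univ.filter fun i : Fin Θ =>
          ∑ e ∈ Ψ.support.filter (fun e => Fin.tail e = Fin.tail e0),
            Ψ e * (2 : ℂ) ^ ((i : ℕ) * e 0) = 0 := by
        rw [hbad]
        refine Finset.filter_congr fun i _ => ?_
        rw [sl_apply]
      rw [h2]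
      omega
    -- the count by the first coordinate
    have hcount : (univ.filter (fun p : Fin (k + 1) → Fin Θ => vl Ψ (fun j => p j) = 0)).card =
        ∑ i : Fin Θ, (univ.filter (fun p : Fin k → Fin Θ => vl (sl Ψ i) (fun j => p j) = 0)).card := by
      rw [← Finset.card_sigma]
      refine Finset.card_bij' (fun p _ => ⟨p 0, Fin.tail p⟩) (fun q _ => Fin.cons q.1 q.2) ?_ ?_ ?_ ?_
      · intro p hp
        rw [mem_filter] at hp
        rw [mem_sigma, mem_filter]
        refine ⟨mem_univ _, mem_univ _, ?_⟩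
        rw [← vl_cons, ← hp.2]
        congr 1
        funext j
        refine Fin.cases rfl (fun j => rfl) j
      · intro q hq
        rw [mem_sigma, mem_filter] at hq
        rw [mem_filter]
        refine ⟨mem_univ _, ?_⟩
        rw [← hq.2.2, ← vl_cons]
        congr 1
        funext j
        refine Fin.cases rfl (fun j => rfl) j
      · intro p _
        exact Fin.cons_self_tail p
      · intro q _
        rfl
    have hi : ∀ i : Fin Θ, (univ.filter (fun p : Fin k → Fin Θ =>
        vl (sl Ψ i) (fun j => p j) = 0)).card * Θ ≤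
          k * R * Θ ^ k + if i ∈ bad then Θ ^ k * Θ else 0 := by
      intro i
      by_cases hib : i ∈ bad
      · rw [if_pos hib]
        refine (Nat.mul_le_mul_right Θ (card_filter_le _ _)).trans ?_
        rw [card_univ, Fintype.card_fun, Fintype.card_fin, Fintype.card_fin]
        exact Nat.le_add_left _ _
      · rw [if_neg hib, add_zero]
        refine ih (sl Ψ i) ?_ ?_
        · intro h
          apply hib
          rw [hbad, mem_filter]
          refine ⟨mem_univ _, ?_⟩
          rw [h]
          rfl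
        · intro j
          refine (card_le_card ?_).trans (hR j.succ)
          intro x hx
          rw [mem_image] at hx ⊢
          obtain ⟨e', he', rfl⟩ := hx
          rw [Finsupp.mem_support_iff, sl_apply] at he'
          obtain ⟨e, he, -⟩ := Finset.exists_ne_zero_of_sum_ne_zero he'
          rw [mem_filter] at he
          exact ⟨e, he.1, by rw [← he.2]; rfl⟩
    rw [hcount, Finset.sum_mul]
    refine (Finset.sum_le_sum fun i _ => hi i).trans ?_
    rw [Finset.sum_add_distrib, Finset.sum_const, card_univ, Fintype.card_fin, smul_eq_mul,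
      Finset.sum_ite_mem, Finset.univ_inter, Finset.sum_const, smul_eq_mul]
    calc Θ * (k * R * Θ ^ k) + bad.card * (Θ ^ k * Θ) ≤
        Θ * (k * R * Θ ^ k) + R * (Θ ^ k * Θ) := by gcongr
      _ = (k + 1) * R * Θ ^ (k + 1) := by ring

/-- **Few zeros on a grid of powers of two.** -/
theorem density {k R Θ : ℕ} (Ψ : (Fin k → ℕ) →₀ ℂ) (hΨ : Ψ ≠ 0)
    (hR : ∀ j, (Ψ.support.image (fun e => e j)).card ≤ R) :
    (Finset.univ.filter (fun p : Fin k → Fin Θ =>
      Ψ.sum (fun e c => c * ∏ j, (2 : ℂ) ^ ((p j : ℕ) * e j)) = 0)).card * Θ ≤ k * R * Θ ^ k :=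
  dens k Ψ hΨ hR

end Pool.Agent.V8H61.RB
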