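import Mathlib

/-!
# Tables that meet all dense patterns: two union bounds
-/

set_option autoImplicit false

open Finset

namespace Pool.Agent.V8H61.RB

theorem card_bad {G : Type} [Fintype G] [DecidableEq G] (S : Finset G)
    (hd : 16 * (Sᶜ).card ≤ Fintype.card G) (M : ℕ) :
    2 ^ M * ((univ : Finset (Fin M → G)).filter fun X =>
      M < 2 * (univ.filter fun l => X l ∉ S).card).card ≤ Fintype.card G ^ M := by
  obtain ⟨f, hf⟩ : ∃ f : G → ℕ, f = fun g => if g ∈ S then 1 else 16 := ⟨_, rfl⟩
  have h1 : (∑ g, f g) ^ M = ∑ X : Fin M → G, ∏ l, f (X l) := Fintype.sum_pow f M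
  have h2 : ∑ g, f g ≤ 2 * Fintype.card G := by
    rw [hf]
    have e : ∑ g, (if g ∈ S then 1 else 16) = S.card + 16 * (Sᶜ).card := by
      rw [← Finset.sum_filter_add_sum_filter_not univ (fun g => g ∈ S)]
      congr 1
      · rw [Finset.sum_congr rfl (g := fun _ => 1) (fun g hg => by
          rw [mem_filter] at hg
          rw [if_pos hg.2])]
        simp
      · rw [Finset.sum_congr rfl (g := fun _ => 16) (fun g hg => by
          rw [mem_filter] at hg
          rw [if_neg hg.2])]
        rw [Finset.sum_const, smul_eq_mul, mul_comm]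
        congr 2
        ext g
        simp
    rw [e]
    have := card_le_univ S
    omega
  have h3 : ∀ X : Fin M → G, ∏ l, f (X l) = 16 ^ (univ.filter fun l => X l ∉ S).card := by
    intro X
    rw [hf]
    rw [← Finset.prod_filter_mul_prod_filter_not univ (fun l => X l ∉ S)]
    rw [Finset.prod_congr rfl (g := fun _ => 16) (fun l hl => by
      rw [mem_filter] at hl
      exact if_neg hl.2)]
    rw [Finset.prod_congr rfl (s₁ := univ.filter fun l => ¬ X l ∉ S) (g := fun _ => 1)
      (fun l hl => by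
        rw [mem_filter, not_not] at hl
        exact if_pos hl.2)]
    rw [Finset.prod_const, Finset.prod_const_one, mul_one]
  have h4 : 4 ^ M * ((univ : Finset (Fin M → G)).filter fun X =>
      M < 2 * (univ.filter fun l => X l ∉ S).card).card ≤ (2 * Fintype.card G) ^ M := by
    calc 4 ^ M * ((univ : Finset (Fin M → G)).filter fun X =>
        M < 2 * (univ.filter fun l => X l ∉ S).card).card
        = ∑ X ∈ (univ : Finset (Fin M → G)).filter (fun X =>
          M < 2 * (univ.filter fun l => X l ∉ S).card), 4 ^ M := by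
          rw [Finset.sum_const, smul_eq_mul, mul_comm]
      _ ≤ ∑ X ∈ (univ : Finset (Fin M → G)).filter (fun X =>
          M < 2 * (univ.filter fun l => X l ∉ S).card), ∏ l, f (X l) := by
          refine Finset.sum_le_sum fun X hX => ?_
          rw [mem_filter] at hX
          rw [h3]
          calc 4 ^ M ≤ 4 ^ (2 * (univ.filter fun l => X l ∉ S).card) :=
                Nat.pow_le_pow_right (by norm_num) hX.2.le
            _ = 16 ^ (univ.filter fun l => X l ∉ S).card := by rw [pow_mul]; norm_num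
      _ ≤ ∑ X : Fin M → G, ∏ l, f (X l) :=
          Finset.sum_le_sum_of_subset (filter_subset _ _)
      _ = (∑ g, f g) ^ M := h1.symm
      _ ≤ (2 * Fintype.card G) ^ M := Nat.pow_le_pow_left h2 M
  have e4 : (4 : ℕ) ^ M = 2 ^ M * 2 ^ M := by rw [← mul_pow]; norm_num
  rw [e4, mul_pow, mul_assoc] at h4
  exact Nat.le_of_mul_le_mul_left h4 (by positivity)

/-- **A small table meets all dense patterns.** -/
theorem exists_table {G : Type} [Fintype G] [DecidableEq G] [Nonempty G] (Pat : Finset (Finset G))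
    (hd : ∀ S ∈ Pat, 16 * (Sᶜ).card ≤ Fintype.card G) (M m : ℕ) (hM : Pat.card < 2 ^ M)
    (hm : ∀ X : Fin M → G,
      (Pat.image (fun S => Finset.univ.filter (fun l => X l ∈ S))).card < 2 ^ m) :
    ∃ T : Fin m → G, ∀ S ∈ Pat, ∃ i, T i ∈ S := by
  rcases Pat.eq_empty_or_nonempty with rfl | hP
  · exact ⟨fun _ => Classical.arbitrary G, by simp⟩
  have hP1 : 1 ≤ Pat.card := hP.card_pos
  have hM1 : 1 ≤ M := by
    rcases Nat.eq_zero_or_pos M with rfl | h
    · rw [pow_zero] at hM; omega
    · exact h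
  have hG : 0 < Fintype.card G := Fintype.card_pos
  -- round one
  obtain ⟨X, hX⟩ : ∃ X : Fin M → G, ∀ S ∈ Pat, 2 * (univ.filter fun l => X l ∉ S).card ≤ M := by
    by_contra hc
    push Not at hc
    have h1 : (univ : Finset (Fin M → G)) ⊆ Pat.biUnion fun S =>
        (univ : Finset (Fin M → G)).filter fun X =>
          M < 2 * (univ.filter fun l => X l ∉ S).card := by
      intro X _
      obtain ⟨S, hS, h⟩ := hc X
      exact mem_biUnion.2 ⟨S, hS, mem_filter.2 ⟨mem_univ _, h⟩⟩
    have h2 := (card_le_card h1).trans card_biUnion_le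
    rw [card_univ, Fintype.card_fun, Fintype.card_fin] at h2
    have h3 : 2 ^ M * Fintype.card G ^ M ≤ Pat.card * Fintype.card G ^ M := by
      calc 2 ^ M * Fintype.card G ^ M ≤ 2 ^ M * ∑ S ∈ Pat,
          ((univ : Finset (Fin M → G)).filter fun X =>
            M < 2 * (univ.filter fun l => X l ∉ S).card).card := Nat.mul_le_mul_left _ h2
        _ = ∑ S ∈ Pat, 2 ^ M * ((univ : Finset (Fin M → G)).filter fun X =>
            M < 2 * (univ.filter fun l => X l ∉ S).card).card := Finset.mul_sum _ _ _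
        _ ≤ ∑ S ∈ Pat, Fintype.card G ^ M := Finset.sum_le_sum fun S hS => card_bad S (hd S hS) M
        _ = _ := by rw [Finset.sum_const, smul_eq_mul]
    have h4 := Nat.le_of_mul_le_mul_right h3 (by positivity)
    omega
  -- round two
  obtain ⟨Pt, hPt⟩ : ∃ Pt : Finset (Finset (Fin M)),
      Pt = Pat.image (fun S => Finset.univ.filter (fun l => X l ∈ S)) := ⟨_, rfl⟩
  have hcard : Pt.card < 2 ^ m := by rw [hPt]; exact hm X
  have hPt2 : ∀ S ∈ Pt, 2 * (Sᶜ).card ≤ M := by
    intro S hS
    rw [hPt, mem_image] at hS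
    obtain ⟨S', hS', rfl⟩ := hS
    refine le_trans (le_of_eq ?_) (hX S' hS')
    congr 2
    ext l
    simp
  obtain ⟨T, hT⟩ : ∃ T : Fin m → Fin M, ∀ S ∈ Pt, ∃ i, T i ∈ S := by
    by_contra hc
    push Not at hc
    have h1 : (univ : Finset (Fin m → Fin M)) ⊆ Pt.biUnion fun S =>
        Fintype.piFinset fun _ : Fin m => Sᶜ := by
      intro T _
      obtain ⟨S, hS, h⟩ := hc T
      exact mem_biUnion.2 ⟨S, hS, Fintype.mem_piFinset.2 fun i => mem_compl.2 (h i)⟩
    have h2 := (card_le_card h1).trans card_biUnion_le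
    rw [card_univ, Fintype.card_fun, Fintype.card_fin, Fintype.card_fin] at h2
    have h3 : 2 ^ m * M ^ m ≤ Pt.card * M ^ m := by
      calc 2 ^ m * M ^ m ≤ 2 ^ m * ∑ S ∈ Pt, (Fintype.piFinset fun _ : Fin m => Sᶜ).card :=
            Nat.mul_le_mul_left _ h2
        _ = ∑ S ∈ Pt, 2 ^ m * (Fintype.piFinset fun _ : Fin m => Sᶜ).card := Finset.mul_sum _ _ _
        _ ≤ ∑ S ∈ Pt, M ^ m := by
            refine Finset.sum_le_sum fun S hS => ?_
            rw [Fintype.card_piFinset, Finset.prod_const, card_univ, Fintype.card_fin, ← mul_pow]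
            exact Nat.pow_le_pow_left (hPt2 S hS) m
        _ = _ := by rw [Finset.sum_const, smul_eq_mul]
    have h4 := Nat.le_of_mul_le_mul_right h3 (by positivity)
    omega
  refine ⟨fun i => X (T i), fun S hS => ?_⟩
  obtain ⟨i, hi⟩ := hT (univ.filter fun l => X l ∈ S) (by
    rw [hPt]
    exact mem_image_of_mem _ hS)
  exact ⟨i, (mem_filter.1 hi).2⟩

end Pool.Agent.V8H61.RB
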