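import Mathlib
import Pool.Agent.V8H37.Roabp.Support

/-!
# A homogeneous program for the lowest part
-/

set_option autoImplicit false

open Finset

namespace Pool.Agent.V8H61.RB

open Pool.Agent.V8H37.Roabp

section

variable {k w : ℕ} (B : Fin k → Matrix (Fin w) (Fin w) (Polynomial ℂ)) (u v : Fin w → ℂ) (s : ℕ)

/-- the coefficients of degree `s` -/
noncomputable def cs (e : Fin k → ℕ) : ℂ := if ∑ i, e i = s then co B u v e else 0

/-- the rows of the coefficient matrix -/
noncomputable def row (j : ℕ) (e : Fin k → ℕ) : (Fin k → ℕ) → ℂ := fun e' => cs B u v s (mix j e e')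

/-- the degree in the last variables -/
def tdeg (j : ℕ) (e : Fin k → ℕ) : ℕ := ∑ i : Fin k, if (i : ℕ) < j then 0 else e i

theorem sum_mix' (j : ℕ) (e e' : Fin k → ℕ) : ∑ i, mix j e e' i = pdeg j e + tdeg j e' :=
  sum_mix j e e'

variable {B u v s}

theorem row_deg {j : ℕ} {e e' : Fin k → ℕ} (h : row B u v s j e e' ≠ 0) :
    pdeg j e + tdeg j e' = s := by
  unfold row cs at h
  rw [sum_mix'] at h
  by_contra hc
  rw [if_neg hc] at h
  exact h rfl

theorem row_eq {j : ℕ} {e e' : Fin k → ℕ} (h : pdeg j e + tdeg j e' = s) :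
    row B u v s j e e' = co B u v (mix j e e') := by
  unfold row cs
  rw [sum_mix', if_pos h]

variable (B u) in
/-- the left vectors -/
noncomputable def lv (j : ℕ) (e : Fin k → ℕ) (c : Fin w) : ℂ :=
  ∑ a, u a * ((List.ofFn (fun i => (B i).map (fun q => q.coeff (e i)))).take j).prod a c

theorem co_lv (j : ℕ) (e' : Fin k → ℕ) : ∃ y : Fin w → ℂ, ∀ e : Fin k → ℕ,
    co B u v (mix j e e') = ∑ c, lv B u j e c * y c :=
  ⟨_, fun e => co_mix B u v j e e'⟩

/-- linear independence of the rows gives linear independence of the left vectors -/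
theorem li_lv (hs : ∀ e, co B u v e ≠ 0 → s ≤ ∑ i, e i) (j : ℕ) {ι : Type} (E : ι → Fin k → ℕ)
    (h : LinearIndependent ℂ fun i => row B u v s j (E i)) :
    LinearIndependent ℂ fun i => lv B u j (E i) := by
  classical
  rw [linearIndependent_iff'] at h ⊢
  intro t g hg
  by_contra hcon
  push Not at hcon
  obtain ⟨i0, hi0, hgi0⟩ := hcon
  obtain ⟨i1, hi1, hmax⟩ := Finset.exists_max_image (t.filter fun i => g i ≠ 0)
    (fun i => pdeg j (E i)) ⟨i0, mem_filter.2 ⟨hi0, hgi0⟩⟩
  rw [mem_filter] at hi1
  have h1 := h (t.filter fun i => pdeg j (E i) = pdeg j (E i1)) g (by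
    funext e'
    rw [Finset.sum_apply, Pi.zero_apply]
    simp only [Pi.smul_apply, smul_eq_mul]
    by_cases hd : pdeg j (E i1) + tdeg j e' = s
    · have h2 : ∑ i ∈ t, g i * co B u v (mix j (E i) e') = 0 := by
        obtain ⟨y, hy⟩ := co_lv (B := B) (u := u) (v := v) j e'
        have h3 : ∀ c, ∑ i ∈ t, g i * lv B u j (E i) c = 0 := by
          intro c
          have := congrFun hg c
          rw [Finset.sum_apply, Pi.zero_apply] at this
          simpa only [Pi.smul_apply, smul_eq_mul] using this
        calc ∑ i ∈ t, g i * co B u v (mix j (E i) e')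
            = ∑ i ∈ t, ∑ c, g i * lv B u j (E i) c * y c := by
              refine Finset.sum_congr rfl fun i _ => ?_
              rw [hy, Finset.mul_sum]
              refine Finset.sum_congr rfl fun c _ => by ring
          _ = ∑ c, (∑ i ∈ t, g i * lv B u j (E i) c) * y c := by
              rw [Finset.sum_comm]
              refine Finset.sum_congr rfl fun c _ => ?_
              rw [Finset.sum_mul]
          _ = 0 := by
              refine Finset.sum_eq_zero fun c _ => ?_
              rw [h3, zero_mul]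
      rw [← h2, Finset.sum_filter]
      refine Finset.sum_congr rfl fun i hi => ?_
      split_ifs with hpi
      · rw [row_eq (by rw [hpi]; exact hd)]
      · by_cases hgi : g i = 0
        · rw [hgi, zero_mul]
        · have h4 := hmax i (mem_filter.2 ⟨hi, hgi⟩)
          have h5 : co B u v (mix j (E i) e') = 0 := by
            by_contra h6
            have h7 := hs _ h6
            rw [sum_mix'] at h7
            omega
          rw [h5, mul_zero]
    · refine Finset.sum_eq_zero fun i hi => ?_
      rw [mem_filter] at hi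
      have h5 : row B u v s j (E i) e' = 0 := by
        by_contra h6
        have h7 := row_deg h6
        rw [hi.2] at h7
        exact hd h7
      rw [h5, mul_zero]) i1 (mem_filter.2 ⟨hi1.1, rfl⟩)
  exact hi1.2 h1

/-- representatives of a spanning set of rows -/
theorem exists_reps (hs : ∀ e, co B u v e ≠ 0 → s ≤ ∑ i, e i) (j : ℕ) :
    ∃ E : Fin w → Fin k → ℕ, ∀ e,
      row B u v s j e ∈ Submodule.span ℂ (Set.range fun i => row B u v s j (E i)) := by
  classical
  obtain ⟨b, hb1, hb2, hb3⟩ := exists_linearIndependent ℂ (Set.range (row B u v s j))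
  choose E0 hE0 using fun x : b => hb1 x.2
  have h1 : LinearIndependent ℂ fun x : b => lv B u j (E0 x) := by
    refine li_lv hs j E0 ?_
    have e1 : (fun x : b => row B u v s j (E0 x)) = (Subtype.val : b → _) := by
      funext x
      exact hE0 x
    rw [e1]
    exact hb3
  have hfin : Finite b := h1.finite
  cases nonempty_fintype b
  have hcard : Fintype.card b ≤ w := by
    have := h1.fintype_card_le_finrank
    simpa using this
  obtain ⟨ι⟩ : Nonempty (b ↪ Fin w) := Function.Embedding.nonempty_of_card_le (by simpa using hcard)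
  refine ⟨Function.extend ι E0 fun _ => 0, fun e => ?_⟩
  have h2 : row B u v s j e ∈ Submodule.span ℂ b := by
    rw [hb2]
    exact Submodule.subset_span ⟨e, rfl⟩
  refine Submodule.span_mono ?_ h2
  intro x hx
  refine ⟨ι ⟨x, hx⟩, ?_⟩
  dsimp only
  rw [ι.injective.extend_apply]
  exact hE0 ⟨x, hx⟩

/-- homogeneous coefficients -/
theorem exists_coeffs {j : ℕ} {E : Fin w → Fin k → ℕ} (e : Fin k → ℕ)
    (h : row B u v s j e ∈ Submodule.span ℂ (Set.range fun i => row B u v s j (E i))) :
    ∃ κ : Fin w → ℂ, (∀ e', row B u v s j e e' = ∑ i, κ i * row B u v s j (E i) e') ∧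
      ∀ i, κ i ≠ 0 → pdeg j (E i) = pdeg j e := by
  classical
  rw [Submodule.mem_span_range_iff_exists_fun] at h
  obtain ⟨κ, hκ⟩ := h
  refine ⟨fun i => if pdeg j (E i) = pdeg j e then κ i else 0, ?_, ?_⟩
  · intro e'
    dsimp only
    have h1 : row B u v s j e e' = ∑ i, κ i * row B u v s j (E i) e' := by
      rw [← hκ, Finset.sum_apply]
      rfl
    by_cases hd : pdeg j e + tdeg j e' = s
    · rw [h1]
      refine Finset.sum_congr rfl fun i _ => ?_
      split_ifs with hp
      · rfl
      · have h5 : row B u v s j (E i) e' = 0 := by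
          by_contra h6
          have h7 := row_deg h6
          omega
        rw [h5, mul_zero, mul_zero]
    · have h5 : row B u v s j e e' = 0 := by
        by_contra h6
        exact hd (row_deg h6)
      rw [h5]
      symm
      refine Finset.sum_eq_zero fun i _ => ?_
      split_ifs with hp
      · have h8 : row B u v s j (E i) e' = 0 := by
          by_contra h6
          have h7 := row_deg h6
          omega
        rw [h8, mul_zero]
      · rw [zero_mul]
  · intro i hi
    by_contra hc
    exact hi (if_neg hc)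

end

/-- change one exponent -/
def upd {k : ℕ} (a : Fin k → ℕ) (j n : ℕ) : Fin k → ℕ := fun l => if (l : ℕ) = j then n else a l

theorem mix_upd {k : ℕ} (j : Fin k) (a e' : Fin k → ℕ) :
    mix ((j : ℕ) + 1) (upd a j (e' j)) e' = mix j a e' := by
  funext l
  unfold mix upd
  by_cases h1 : (l : ℕ) = j
  · have h2 : l = j := Fin.ext h1
    subst h2
    rw [if_pos (by omega), if_pos rfl, if_neg (by omega)]
  · by_cases h2 : (l : ℕ) < j
    · rw [if_pos (by omega), if_neg h1, if_pos h2]
    · rw [if_neg (by omega), if_neg h2]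

theorem pdeg_upd {k : ℕ} (j : Fin k) (a : Fin k → ℕ) (n : ℕ) :
    pdeg ((j : ℕ) + 1) (upd a j n) = pdeg j a + n := by
  rw [pdeg_succ]
  congr 1
  · unfold pdeg upd
    refine Finset.sum_congr rfl fun l _ => ?_
    by_cases h2 : (l : ℕ) < j
    · rw [if_pos h2, if_pos h2, if_neg (by omega)]
    · rw [if_neg h2, if_neg h2]
  · unfold upd
    rw [if_pos rfl]

theorem mix_zero {k : ℕ} (a e' : Fin k → ℕ) : mix 0 a e' = e' := by
  funext l
  unfold mix
  rw [if_neg (by omega)]

theorem mix_last {k : ℕ} (a e' : Fin k → ℕ) : mix k a e' = a := by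
  funext l
  unfold mix
  rw [if_pos l.2]

/-- **A homogeneous program of the same width.** -/
theorem tt {k w : ℕ} (_hw : 1 ≤ w) (B : Fin k → Matrix (Fin w) (Fin w) (Polynomial ℂ))
    (u v : Fin w → ℂ) (s : ℕ) (hs : ∀ e, co B u v e ≠ 0 → s ≤ ∑ i, e i) :
    ∃ (deg : ℕ → Fin w → ℕ) (K : ℕ → Matrix (Fin w) (Fin w) ℂ) (u' v' : Fin w → ℂ),
      ∀ z : Fin k → ℂ, (∀ j, z j ≠ 0) →
        ∑ e ∈ Finset.piAntidiag (Finset.univ : Finset (Fin k)) s, co B u v e * ∏ j, z j ^ e j =
          ∑ a, ∑ b, u' a * (List.ofFn (fun j : Fin k => (Matrix.of fun i i' : Fin w =>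
            K j i i' * (z j) ^ (deg (j + 1) i') * ((z j)⁻¹) ^ (deg j i) :
              Matrix (Fin w) (Fin w) ℂ))).prod a b * v' b := by
  classical
  choose E hE using fun j => exists_reps (B := B) (u := u) (v := v) (s := s) hs j
  choose κ hκ1 hκ2 using fun j e => exists_coeffs e (hE j e)
  obtain ⟨Kn, hKn⟩ : ∃ Kn : ℕ → ℕ → Matrix (Fin w) (Fin w) ℂ,
      Kn = fun j n => Matrix.of fun i i' => κ (j + 1) (upd (E j i) j n) i' := ⟨_, rfl⟩
  obtain ⟨deg, hdeg⟩ : ∃ deg : ℕ → Fin w → ℕ, deg = fun j i => pdeg j (E j i) := ⟨_, rfl⟩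
  obtain ⟨D, hD⟩ : ∃ D : ℕ, D = s + ∑ j ∈ range (k + 1), ∑ i, deg j i := ⟨_, rfl⟩
  have hdD : ∀ j, j ≤ k → ∀ i, deg j i ≤ D := by
    intro j hj i
    have h1 : deg j i ≤ ∑ i, deg j i :=
      single_le_sum (f := fun i => deg j i) (fun _ _ => Nat.zero_le _) (mem_univ i)
    have h2 : ∑ i, deg j i ≤ ∑ j ∈ range (k + 1), ∑ i, deg j i :=
      single_le_sum (f := fun j => ∑ i, deg j i) (fun _ _ => Nat.zero_le _)
        (mem_range.2 (Nat.lt_succ_of_le hj))
    omega
  -- the transitions
  have hstep : ∀ (j : Fin k) (i : Fin w) (e' : Fin k → ℕ), row B u v s j (E j i) e' =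
      ∑ i', Kn j (e' j) i i' * row B u v s ((j : ℕ) + 1) (E ((j : ℕ) + 1) i') e' := by
    intro j i e'
    have h1 : row B u v s j (E j i) e' =
        row B u v s ((j : ℕ) + 1) (upd (E j i) j (e' j)) e' := by
      unfold row
      rw [mix_upd]
    rw [h1, hκ1, hKn]
    rfl
  have hzero : ∀ (j : Fin k) (n : ℕ) (i i' : Fin w), Kn j n i i' ≠ 0 →
      deg ((j : ℕ) + 1) i' = deg j i + n := by
    intro j n i i' h
    rw [hKn] at h
    have := hκ2 _ _ _ h
    rw [pdeg_upd] at this
    rw [hdeg]
    exact this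
  -- the program
  have hprog : ∀ (e' : Fin k → ℕ) (j : ℕ), j ≤ k → ∀ i, row B u v s 0 (E 0 i) e' =
      ∑ i', ((List.ofFn fun l : Fin k => Kn l (e' l)).take j).prod i i' *
        row B u v s j (E j i') e' := by
    intro e' j
    induction j with
    | zero =>
      intro _ i
      rw [List.take_zero, List.prod_nil]
      simp [Matrix.one_apply]
    | succ j ih =>
      intro hj i
      rw [ih (by omega) i]
      have hlen : j < (List.ofFn fun l : Fin k => Kn l (e' l)).length := by
        rw [List.length_ofFn]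
        omega
      rw [List.prod_take_succ _ _ hlen, List.getElem_ofFn]
      have h2 : ∀ i', row B u v s j (E j i') e' = ∑ i'', Kn j (e' ⟨j, by omega⟩) i' i'' *
          row B u v s (j + 1) (E (j + 1) i'') e' := fun i' => hstep ⟨j, by omega⟩ i' e'
      simp only [h2, Matrix.mul_apply, Finset.mul_sum, Finset.sum_mul]
      rw [Finset.sum_comm]
      refine Finset.sum_congr rfl fun a _ => Finset.sum_congr rfl fun b _ => ?_
      ring
  have hcs : ∀ e : Fin k → ℕ, ∑ a, ∑ b, κ 0 0 a *
      (List.ofFn fun l : Fin k => Kn l (e l)).prod a b * cs B u v s (E k b) = cs B u v s e := by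
    intro e
    have h1 : cs B u v s e = row B u v s 0 0 e := by
      unfold row
      rw [mix_zero]
    rw [h1, hκ1]
    refine Finset.sum_congr rfl fun a _ => ?_
    rw [hprog e k le_rfl a, Finset.mul_sum]
    refine Finset.sum_congr rfl fun b _ => ?_
    have h2 : (List.ofFn fun l : Fin k => Kn l (e l)).take k =
        List.ofFn fun l : Fin k => Kn l (e l) := by
      rw [List.take_of_length_le]
      rw [List.length_ofFn]
    rw [h2]
    unfold row
    rw [mix_last, mul_assoc]
  refine ⟨deg, fun j => Matrix.of fun i i' => if deg j i ≤ deg (j + 1) i' then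
    Kn j (deg (j + 1) i' - deg j i) i i' else 0, κ 0 0, fun b => cs B u v s (E k b), ?_⟩
  intro z hz
  have hexp := expand_gen (fun _ : Fin k => range (D + 1)) (fun j n => Kn j n) (κ 0 0)
    (fun b => cs B u v s (E k b)) z
  have hmat : (fun j : Fin k => ∑ e ∈ range (D + 1), (z j) ^ e • (Kn j e).map (algebraMap ℂ ℂ)) =
      fun j : Fin k => (Matrix.of fun i i' : Fin w => (Matrix.of fun i i' =>
        if deg j i ≤ deg ((j : ℕ) + 1) i' then Kn j (deg ((j : ℕ) + 1) i' - deg j i) i i' else 0) i i' *
          (z j) ^ (deg ((j : ℕ) + 1) i') * ((z j)⁻¹) ^ (deg j i) : Matrix (Fin w) (Fin w) ℂ) := by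
    funext j
    ext i i'
    rw [Matrix.sum_apply, Matrix.of_apply, Matrix.of_apply]
    simp only [Matrix.smul_apply, Matrix.map_apply, smul_eq_mul, Algebra.algebraMap_self,
      RingHom.id_apply]
    split_ifs with hle
    · obtain ⟨n, hn⟩ := Nat.exists_eq_add_of_le hle
      have hnD : n ∈ range (D + 1) := by
        have := hdD ((j : ℕ) + 1) j.2 i'
        rw [mem_range]
        omega
      rw [Finset.sum_eq_single n]
      · have h1 : deg ((j : ℕ) + 1) i' - deg j i = n := by omega
        rw [h1, hn, pow_add, inv_pow]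
        field_simp [hz j]
      · intro b _ hb
        by_contra hne
        have h2 : Kn j b i i' ≠ 0 := fun h => hne (by rw [h, mul_zero])
        have := hzero j b i i' h2
        omega
      · intro h
        exact absurd hnD h
    · rw [zero_mul, zero_mul]
      refine Finset.sum_eq_zero fun b _ => ?_
      by_contra hne
      have h2 : Kn j b i i' ≠ 0 := fun h => hne (by rw [h, mul_zero])
      have := hzero j b i i' h2
      omega
  rw [hmat] at hexp
  simp only [Algebra.algebraMap_self, RingHom.id_apply] at hexp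
  rw [hexp]
  simp only [hcs]
  have h1 : ∑ e ∈ Finset.piAntidiag (univ : Finset (Fin k)) s, co B u v e * ∏ j, z j ^ e j =
      ∑ e ∈ Finset.piAntidiag (univ : Finset (Fin k)) s, cs B u v s e * ∏ j, z j ^ e j := by
    refine Finset.sum_congr rfl fun e he => ?_
    rw [mem_piAntidiag] at he
    unfold cs
    rw [if_pos he.1]
  rw [h1]
  refine Finset.sum_subset ?_ ?_
  · intro e he
    rw [mem_piAntidiag] at he
    rw [Fintype.mem_piFinset]
    intro i
    have h2 : e i ≤ ∑ i, e i := single_le_sum (f := fun i => e i) (fun _ _ => Nat.zero_le _)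
      (mem_univ i)
    have h3 : ∑ i, e i = s := he.1
    rw [mem_range]
    omega
  · intro e _ he
    rw [mem_piAntidiag] at he
    unfold cs
    rw [if_neg, zero_mul]
    intro h
    exact he ⟨h, fun i _ => mem_univ i⟩

end Pool.Agent.V8H61.RB
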